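import Pool.Agent.H93.Sens.Huang

open Finset

namespace Pool.Agent.H93.Sens

variable {n : ℕ}

/-- number of sensitive coordinates of `f` at `x` -/
def sensAt (f : (Fin n → Bool) → Bool) (x : Fin n → Bool) : ℕ :=
  (univ.filter (fun i : Fin n => f (Function.update x i (!x i)) ≠ f x)).card

/-- indicator point of a set -/
def ind (S : Finset (Fin n)) : Fin n → Bool := fun i => decide (i ∈ S)

/-- value as integer -/
def val (f : (Fin n → Bool) → Bool) (x : Fin n → Bool) : ℤ := if f x then 1 else 0

/-- Moebius coefficient of the monomial `x^S`. -/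
def moeb (f : (Fin n → Bool) → Bool) (S : Finset (Fin n)) : ℤ :=
  ∑ T ∈ S.powerset, (-1) ^ (S.card - T.card) * val f (ind T)

/-- extension by zero of a point of the subcube `S` -/
def ext (S : Finset (Fin n)) (y : S → Bool) : Fin n → Bool := fun i => if h : i ∈ S then y ⟨i, h⟩ else false

lemma ext_flip (S : Finset (Fin n)) (y : S → Bool) (i : S) :
    ext S (flip y i) = Function.update (ext S y) i.1 (!(ext S y i.1)) := by
  funext j
  by_cases hj : j = i.1
  · subst hj
    simp [ext, flip]
  · rw [Function.update_of_ne hj]
    unfold ext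
    by_cases h : j ∈ S
    · rw [dif_pos h, dif_pos h]
      rw [flip_ne]
      intro h2
      exact hj (congrArg Subtype.val h2)
    · rw [dif_neg h, dif_neg h]

/-- the sum of `τ(y) f(y)` over the subcube is the Moebius coefficient up to sign -/
lemma sum_tau_eq (f : (Fin n → Bool) → Bool) (S : Finset (Fin n)) :
    ∑ y : S → Bool, tau y * (val f (ext S y) : ℝ) = (-1) ^ S.card * (moeb f S : ℝ) := by
  classical
  unfold moeb
  push_cast
  rw [mul_sum]
  -- bijection between `S → Bool` and the powerset of `S`
  refine sum_bij' (i := fun (y : S → Bool) _ => S.filter (fun j => ext S y j = true))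
    (j := fun T _ => fun j : S => decide (j.1 ∈ T)) ?_ ?_ ?_ ?_ ?_
  · intro y _
    exact mem_powerset.2 (filter_subset _ _)
  · intro T _
    exact mem_univ _
  · intro y _
    funext j
    simp only [mem_filter, j.2, true_and]
    simp [ext, j.2]
  · intro T hT
    rw [mem_powerset] at hT
    ext j
    simp only [mem_filter]
    constructor
    · rintro ⟨h1, h2⟩
      simpa [ext, h1] using h2
    · intro h
      refine ⟨hT h, ?_⟩
      simp [ext, hT h, h]
  · intro y _
    set T := S.filter (fun j => ext S y j = true) with hT
    have h1 : ind T = ext S y := by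
      funext j
      unfold ind
      by_cases h : ext S y j = true
      · have hS : j ∈ S := by
          by_contra hS
          simp [ext, hS] at h
        rw [h]
        simp [hT, hS, h]
      · have h' : ext S y j = false := by simpa using h
        rw [h']
        simp [hT, h']
    rw [h1]
    have h2 : tau y = (-1) ^ T.card := by
      unfold tau
      have h3 : ∏ j : S, sg (y j) = ∏ j ∈ S, sg (ext S y j) := by
        rw [← prod_coe_sort S (fun j => sg (ext S y j))]
        refine prod_congr rfl fun j _ => ?_
        simp [ext, j.2]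
      rw [h3]
      unfold sg
      rw [prod_ite, prod_const, prod_const, one_pow, mul_one]
    rw [h2]
    have hle : T.card ≤ S.card := card_le_card (filter_subset _ _)
    have h4 : (-1 : ℝ) ^ T.card = (-1) ^ S.card * (-1) ^ (S.card - T.card) := by
      rw [← pow_add]
      obtain ⟨k, hk⟩ := Nat.exists_eq_add_of_le hle
      rw [hk]
      have : T.card + k + (T.card + k - T.card) = T.card + 2 * k := by omega
      rw [this, pow_add, pow_mul]
      simp
    rw [h4]
    ring

/-- **Huang + Gotsman–Linial**: if the coefficient of `x^S` is nonzero then `|S| ≤ s²`. -/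
theorem card_le_sq_of_moeb_ne_zero (f : (Fin n → Bool) → Bool) (s : ℕ)
    (hs : ∀ x, sensAt f x ≤ s) (S : Finset (Fin n)) (hS : moeb f S ≠ 0) : S.card ≤ s ^ 2 := by
  classical
  rcases Nat.eq_zero_or_pos S.card with h0 | hpos
  · omega
  have hd : 0 < Fintype.card S := by simpa using hpos
  let g : (S → Bool) → Bool := fun y => f (ext S y)
  have hsum : ∑ y : S → Bool, tau y * (val f (ext S y) : ℝ) ≠ 0 := by
    rw [sum_tau_eq]
    refine mul_ne_zero (by positivity) ?_
    · exact_mod_cast hS
  -- the two sets
  let P : Finset (S → Bool) := univ.filter fun y => tau y * (1 - 2 * (val f (ext S y) : ℝ)) = 1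
  let Q : Finset (S → Bool) := univ.filter fun y => tau y * (1 - 2 * (val f (ext S y) : ℝ)) = -1
  have hval : ∀ y, tau y * (1 - 2 * (val f (ext S y) : ℝ)) = 1 ∨ tau y * (1 - 2 * (val f (ext S y) : ℝ)) = -1 := by
    intro y
    have h1 : tau y = 1 ∨ tau y = -1 := by
      have := tau_mul_self y
      exact mul_self_eq_one_iff.1 this
    have h2 : (1 - 2 * (val f (ext S y) : ℝ)) = 1 ∨ (1 - 2 * (val f (ext S y) : ℝ)) = -1 := by
      unfold val
      split_ifs
      · right; norm_num
      · left; norm_num
    rcases h1 with h1 | h1 <;> rcases h2 with h2 | h2 <;> rw [h1, h2] <;> norm_num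
  have htau : ∑ y : S → Bool, tau y = 0 := by
    obtain ⟨i⟩ : Nonempty S := Fintype.card_pos_iff.1 hd
    have h1 : ∑ y : S → Bool, tau y = ∑ y : S → Bool, tau (flip y i) := by
      refine (Equiv.sum_comp (Function.Involutive.toPerm (fun y => flip y i) (fun y => flip_flip y i)) tau).symm
    have h2 : ∑ y : S → Bool, tau (flip y i) = - ∑ y : S → Bool, tau y := by
      rw [← sum_neg_distrib]
      exact sum_congr rfl fun y _ => tau_flip y i
    linarith
  have hPQ : (P.card : ℝ) - Q.card = ∑ y : S → Bool, tau y * (1 - 2 * (val f (ext S y) : ℝ)) := by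
    have h1 : ∀ y, tau y * (1 - 2 * (val f (ext S y) : ℝ))
        = (if tau y * (1 - 2 * (val f (ext S y) : ℝ)) = 1 then 1 else 0)
          - (if tau y * (1 - 2 * (val f (ext S y) : ℝ)) = -1 then 1 else 0) := by
      intro y
      rcases hval y with h | h <;> rw [h] <;> norm_num
    rw [sum_congr rfl (fun y _ => h1 y), sum_sub_distrib]
    simp [P, Q]
  have hPQne : (P.card : ℝ) ≠ Q.card := by
    intro h
    apply hsum
    have h1 : (0 : ℝ) = ∑ y : S → Bool, tau y * (1 - 2 * (val f (ext S y) : ℝ)) := by
      rw [← hPQ, h, sub_self]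
    have h2 : ∑ y : S → Bool, tau y * (1 - 2 * (val f (ext S y) : ℝ))
        = ∑ y : S → Bool, tau y - 2 * ∑ y : S → Bool, tau y * (val f (ext S y) : ℝ) := by
      rw [mul_sum, ← sum_sub_distrib]
      exact sum_congr rfl fun y _ => by ring
    rw [h2, htau] at h1
    linarith
  have htot : P.card + Q.card = 2 ^ Fintype.card S := by
    have h1 : P ∪ Q = univ := by
      ext y
      simp only [P, Q, mem_union, mem_filter, mem_univ, true_and, iff_true]
      exact hval y
    have h2 : Disjoint P Q := by
      rw [Finset.disjoint_left]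
      intro y hy hy'
      simp only [P, Q, mem_filter, mem_univ, true_and] at hy hy'
      rw [hy] at hy'
      norm_num at hy'
    rw [← card_union_of_disjoint h2, h1, card_univ, Fintype.card_fun, Fintype.card_bool]
  -- general consequence
  have key : ∀ (c : ℝ), c ≠ 0 →
      ∀ (Z : Finset (S → Bool)), (∀ y, y ∈ Z ↔ tau y * (1 - 2 * (val f (ext S y) : ℝ)) = c) →
      2 ^ Fintype.card S < 2 * Z.card → S.card ≤ s ^ 2 := by
    intro c hc Z hZ hcard
    obtain ⟨q, hq, hdeg⟩ := huang hd Z hcard
    have hsub : (univ.filter fun i : S => flip q i ∈ Z).card ≤ sensAt f (ext S q) := by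
      unfold sensAt
      refine card_le_card_of_injOn (fun i : S => i.1) ?_ (fun a _ b _ h => Subtype.ext h)
      intro i hi
      have hi' : flip q i ∈ Z := by simpa using hi
      simp only [coe_filter, mem_univ, true_and, Set.mem_ofPred_eq]
      intro heq
      rw [← ext_flip] at heq
      have h1 := (hZ _).1 hi'
      have h2 := (hZ _).1 hq
      have h3 : val f (ext S (flip q i)) = val f (ext S q) := by
        unfold val
        rw [heq]
      rw [tau_flip, h3] at h1
      have : c = -c := by
        rw [← h2] at h1 ⊢
        linarith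
      apply hc
      linarith
    have h1 := hs (ext S q)
    rw [Fintype.card_coe] at hdeg
    calc S.card ≤ _ := hdeg
      _ ≤ s ^ 2 := Nat.pow_le_pow_left (hsub.trans h1) 2
  have hPQne' : P.card ≠ Q.card := fun h => hPQne (by rw [h])
  rcases lt_or_gt_of_ne hPQne' with h | h
  · refine key (-1) (by norm_num) Q (fun y => by simp [Q]) ?_
    omega
  · refine key 1 (by norm_num) P (fun y => by simp [P]) ?_
    omega

end Pool.Agent.H93.Sens
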