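import Pool.Agent.H93.Sens.Degree

open Finset

namespace Pool.Agent.H93.Sens

variable {n : ℕ}

/-- the character of `U` -/
def chi (U : Finset (Fin n)) (x : Fin n → Bool) : ℤ := ∏ i ∈ U, (if x i then -1 else 1)

/-- unnormalized Fourier coefficient -/
def four (f : (Fin n → Bool) → Bool) (U : Finset (Fin n)) : ℤ := ∑ x, val f x * chi U x

/-- the support of a point -/
def supp (x : Fin n → Bool) : Finset (Fin n) := univ.filter fun i => x i = true

lemma ind_supp (x : Fin n → Bool) : ind (supp x) = x := by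
  funext i
  cases h : x i <;> simp [ind, supp, h]

/-- Moebius inversion -/
lemma val_eq_sum_moeb (f : (Fin n → Bool) → Bool) (x : Fin n → Bool) :
    val f x = ∑ S ∈ (supp x).powerset, moeb f S := by
  classical
  set X := supp x with hX
  unfold moeb
  have h1 : ∑ S ∈ X.powerset, ∑ T ∈ S.powerset, (-1 : ℤ) ^ (S.card - T.card) * val f (ind T)
      = ∑ T ∈ X.powerset, ∑ S ∈ X.powerset.filter (fun S => T ⊆ S), (-1 : ℤ) ^ (S.card - T.card) * val f (ind T) := by
    rw [sum_comm' (t' := X.powerset) (s' := fun T => X.powerset.filter (fun S => T ⊆ S))]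
    intro S T
    simp only [mem_powerset, mem_filter]
    constructor
    · rintro ⟨h1, h2⟩
      exact ⟨⟨h1, h2⟩, h2.trans h1⟩
    · rintro ⟨⟨h1, h2⟩, _⟩
      exact ⟨h1, h2⟩
  rw [h1]
  have h2 : ∀ T ∈ X.powerset, (∑ S ∈ X.powerset.filter (fun S => T ⊆ S), (-1 : ℤ) ^ (S.card - T.card) * val f (ind T))
      = if T = X then val f (ind T) else 0 := by
    intro T hT
    rw [mem_powerset] at hT
    rw [← sum_mul]
    have h3 : ∑ S ∈ X.powerset.filter (fun S => T ⊆ S), (-1 : ℤ) ^ (S.card - T.card)
        = ∑ R ∈ (X \ T).powerset, (-1 : ℤ) ^ R.card := by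
      refine sum_bij' (i := fun S _ => S \ T) (j := fun R _ => R ∪ T) ?_ ?_ ?_ ?_ ?_
      · intro S hS
        simp only [mem_filter, mem_powerset] at hS ⊢
        exact sdiff_subset_sdiff hS.1 le_rfl
      · intro R hR
        simp only [mem_filter, mem_powerset] at hR ⊢
        exact ⟨union_subset (hR.trans sdiff_subset) hT, subset_union_right⟩
      · intro S hS
        simp only [mem_filter, mem_powerset] at hS
        exact sdiff_union_of_subset hS.2
      · intro R hR
        rw [mem_powerset] at hR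
        have : Disjoint R T := disjoint_of_subset_left hR sdiff_disjoint
        rw [union_sdiff_right, sdiff_eq_self_of_disjoint this]
      · intro S hS
        simp only [mem_filter, mem_powerset] at hS
        rw [card_sdiff_of_subset hS.2]
    rw [h3, sum_powerset_neg_one_pow_card]
    by_cases h : T = X
    · subst h
      simp
    · rw [if_neg h, if_neg, zero_mul]
      intro h4
      exact h (subset_antisymm hT (sdiff_eq_empty_iff_subset.1 h4))
  rw [sum_congr rfl h2, sum_ite_eq' X.powerset X]
  simp [hX, ind_supp]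

/-- sum of a product function over the cube -/
lemma sum_prod_cube (h : Fin n → Bool → ℤ) :
    ∑ x : Fin n → Bool, ∏ i, h i (x i) = ∏ i, (h i false + h i true) := by
  rw [← Fintype.piFinset_univ, ← prod_univ_sum]
  refine prod_congr rfl fun i _ => ?_
  simp [Fintype.univ_bool, add_comm]

lemma chi_eq_prod (U : Finset (Fin n)) (x : Fin n → Bool) :
    chi U x = ∏ i, (if i ∈ U then (if x i then -1 else 1) else 1) := by
  unfold chi
  rw [prod_ite_mem, univ_inter]

lemma sum_chi_superset (U S : Finset (Fin n)) :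
    ∑ x : Fin n → Bool, (if S ⊆ supp x then chi U x else 0)
      = if U ⊆ S then (-1) ^ U.card * 2 ^ (n - S.card) else 0 := by
  classical
  let h : Fin n → Bool → ℤ := fun i b => (if (i ∈ S → b = true) then (1 : ℤ) else 0) *
        (if i ∈ U then (if b then -1 else 1) else 1)
  have h1 : ∀ x : Fin n → Bool, (if S ⊆ supp x then chi U x else 0) = ∏ i, h i (x i) := by
    intro x
    simp only [h]
    rw [prod_mul_distrib, ← chi_eq_prod]
    by_cases h : S ⊆ supp x
    · rw [if_pos h, prod_eq_one, one_mul]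
      intro i _
      rw [if_pos]
      intro hi
      simpa [supp] using h hi
    · rw [if_neg h]
      obtain ⟨i, hi, hi'⟩ := not_subset.1 h
      rw [prod_eq_zero (mem_univ i), zero_mul]
      rw [if_neg]
      intro h2
      exact hi' (by simpa [supp] using h2 hi)
  rw [sum_congr rfl fun x _ => h1 x, sum_prod_cube h]
  have h2 : ∀ i : Fin n, h i false + h i true
      = if i ∈ S then (if i ∈ U then -1 else 1) else (if i ∈ U then 0 else 2) := by
    intro i
    by_cases hS : i ∈ S <;> by_cases hU : i ∈ U <;> simp [h, hS, hU]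
  rw [prod_congr rfl fun i _ => h2 i]
  by_cases hUS : U ⊆ S
  · rw [if_pos hUS]
    have h3 : ∀ i : Fin n, (if i ∈ S then (if i ∈ U then (-1 : ℤ) else 1) else (if i ∈ U then 0 else 2))
        = (if i ∈ U then (-1) else 1) * (if i ∈ Sᶜ then 2 else 1) := by
      intro i
      by_cases hS : i ∈ S
      · simp [hS]
      · have hU : i ∉ U := fun h => hS (hUS h)
        simp [hS, hU]
    rw [prod_congr rfl fun i _ => h3 i, prod_mul_distrib, prod_ite_mem, prod_ite_mem, univ_inter,
      univ_inter, prod_const, prod_const, card_compl, Fintype.card_fin]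
  · rw [if_neg hUS]
    obtain ⟨i, hi, hi'⟩ := not_subset.1 hUS
    rw [prod_eq_zero (mem_univ i)]
    simp [hi, hi']

lemma four_eq (f : (Fin n → Bool) → Bool) (U : Finset (Fin n)) :
    four f U = ∑ S ∈ univ.filter (fun S => U ⊆ S), moeb f S * ((-1) ^ U.card * 2 ^ (n - S.card)) := by
  classical
  unfold four
  have h1 : ∀ x : Fin n → Bool, val f x * chi U x
      = ∑ S : Finset (Fin n), moeb f S * (if S ⊆ supp x then chi U x else 0) := by
    intro x
    rw [val_eq_sum_moeb, sum_mul]
    have : (supp x).powerset = univ.filter (fun S => S ⊆ supp x) := by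
      ext S; simp
    rw [this, sum_filter]
    refine sum_congr rfl fun S _ => ?_
    by_cases h : S ⊆ supp x <;> simp [h]
  rw [sum_congr rfl fun x _ => h1 x, sum_comm, sum_filter]
  refine sum_congr rfl fun S _ => ?_
  rw [← mul_sum, sum_chi_superset]
  by_cases h : U ⊆ S <;> simp [h]

lemma four_eq_zero (f : (Fin n → Bool) → Bool) (D : ℕ) (hD : ∀ S, moeb f S ≠ 0 → S.card ≤ D)
    (U : Finset (Fin n)) (hU : D < U.card) : four f U = 0 := by
  rw [four_eq]
  refine sum_eq_zero fun S hS => ?_
  rw [mem_filter] at hS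
  have : moeb f S = 0 := by
    by_contra h
    have h1 := hD S h
    have h2 := card_le_card hS.2
    omega
  rw [this, zero_mul]

lemma dvd_four (f : (Fin n → Bool) → Bool) (D : ℕ) (hD : ∀ S, moeb f S ≠ 0 → S.card ≤ D)
    (U : Finset (Fin n)) : (2 : ℤ) ^ (n - D) ∣ four f U := by
  rw [four_eq]
  refine dvd_sum fun S hS => ?_
  by_cases h : moeb f S = 0
  · rw [h, zero_mul]; exact dvd_zero _
  · refine Dvd.dvd.mul_left (Dvd.dvd.mul_left ?_ _) _
    refine pow_dvd_pow 2 ?_
    have := hD S h
    omega

/-- orthogonality -/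
lemma sum_chi_mul_chi (x y : Fin n → Bool) :
    ∑ U : Finset (Fin n), chi U x * chi U y = if x = y then 2 ^ n else 0 := by
  classical
  have h1 : ∀ U : Finset (Fin n), chi U x * chi U y
      = ∏ i ∈ U, ((if x i then (-1 : ℤ) else 1) * (if y i then -1 else 1)) := by
    intro U
    unfold chi
    rw [prod_mul_distrib]
  rw [sum_congr rfl fun U _ => h1 U]
  have h2 := prod_one_add (s := (univ : Finset (Fin n)))
    (f := fun i => ((if x i then (-1 : ℤ) else 1) * (if y i then -1 else 1)))
  rw [powerset_univ] at h2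
  rw [← h2]
  by_cases h : x = y
  · subst h
    rw [if_pos rfl, prod_congr rfl (g := fun _ => (2 : ℤ))]
    · simp
    · intro i _
      cases x i <;> simp
  · rw [if_neg h]
    obtain ⟨i, hi⟩ := Function.ne_iff.1 h
    refine prod_eq_zero (mem_univ i) ?_
    cases hx : x i <;> cases hy : y i <;> simp_all

/-- Fourier inversion -/
lemma four_inversion (f : (Fin n → Bool) → Bool) (x : Fin n → Bool) :
    ∑ U : Finset (Fin n), four f U * chi U x = 2 ^ n * val f x := by
  classical
  unfold four
  have h1 : ∑ U : Finset (Fin n), (∑ y, val f y * chi U y) * chi U x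
      = ∑ y, val f y * ∑ U : Finset (Fin n), chi U y * chi U x := by
    simp_rw [sum_mul, mul_sum]
    rw [sum_comm]
    refine sum_congr rfl fun y _ => sum_congr rfl fun U _ => by ring
  rw [h1]
  simp_rw [sum_chi_mul_chi]
  simp [mul_comm]

/-- Parseval -/
lemma parseval (f : (Fin n → Bool) → Bool) :
    ∑ U : Finset (Fin n), four f U ^ 2 = 2 ^ n * ∑ x, val f x ^ 2 := by
  have h1 : ∀ U, four f U ^ 2 = ∑ x, val f x * (four f U * chi U x) := by
    intro U
    rw [sq]
    nth_rewrite 2 [four]
    rw [mul_sum]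
    exact sum_congr rfl fun x _ => by ring
  rw [sum_congr rfl fun U _ => h1 U, sum_comm]
  simp_rw [← mul_sum]
  simp_rw [four_inversion]
  rw [mul_sum]
  exact sum_congr rfl fun x _ => by ring

lemma sum_val_sq_le (f : (Fin n → Bool) → Bool) : ∑ x, val f x ^ 2 ≤ 2 ^ n := by
  calc ∑ x, val f x ^ 2 ≤ ∑ x : Fin n → Bool, (1 : ℤ) := by
        refine sum_le_sum fun x _ => ?_
        unfold val
        split_ifs <;> norm_num
    _ = 2 ^ n := by simp

/-- the Fourier support -/
def fsupp (f : (Fin n → Bool) → Bool) : Finset (Finset (Fin n)) := univ.filter fun U => four f U ≠ 0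

/-- **granularity**: a function of degree `≤ D` has at most `4^D` nonzero Fourier coefficients. -/
theorem card_fsupp_le (f : (Fin n → Bool) → Bool) (D : ℕ) (hD : ∀ S, moeb f S ≠ 0 → S.card ≤ D) :
    (fsupp f).card ≤ 4 ^ D := by
  classical
  rcases le_or_gt D n with hDn | hDn
  · have h1 : ((fsupp f).card : ℤ) * ((2 : ℤ) ^ (n - D)) ^ 2 ≤ 2 ^ n * 2 ^ n := by
      calc ((fsupp f).card : ℤ) * ((2 : ℤ) ^ (n - D)) ^ 2 = ∑ U ∈ fsupp f, ((2 : ℤ) ^ (n - D)) ^ 2 := by
            rw [sum_const, nsmul_eq_mul]
        _ ≤ ∑ U ∈ fsupp f, four f U ^ 2 := by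
            refine sum_le_sum fun U hU => ?_
            have hne : four f U ≠ 0 := by simpa [fsupp] using hU
            have hdvd := dvd_four f D hD U
            have habs : (2 : ℤ) ^ (n - D) ≤ |four f U| := by
              have h3 := Int.le_of_dvd (abs_pos.2 hne) ((dvd_abs _ _).2 hdvd)
              exact h3
            calc ((2 : ℤ) ^ (n - D)) ^ 2 ≤ |four f U| ^ 2 := pow_le_pow_left₀ (by positivity) habs 2
              _ = four f U ^ 2 := sq_abs _
        _ ≤ ∑ U : Finset (Fin n), four f U ^ 2 :=
            sum_le_sum_of_subset_of_nonneg (filter_subset _ _) (fun _ _ _ => sq_nonneg _)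
        _ = 2 ^ n * ∑ x, val f x ^ 2 := parseval f
        _ ≤ 2 ^ n * 2 ^ n := by
            have := sum_val_sq_le f
            gcongr
    have h2 : (2 : ℤ) ^ n * 2 ^ n = 4 ^ D * ((2 : ℤ) ^ (n - D)) ^ 2 := by
      have : n = D + (n - D) := by omega
      rw [show (4 : ℤ) = 2 ^ 2 by norm_num, ← pow_mul, ← pow_mul, ← pow_add, ← pow_add]
      congr 1
      omega
    rw [h2] at h1
    have h3 : (0 : ℤ) < ((2 : ℤ) ^ (n - D)) ^ 2 := by positivity
    have h4 := le_of_mul_le_mul_right h1 h3
    exact_mod_cast h4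
  · calc (fsupp f).card ≤ (univ : Finset (Finset (Fin n))).card := card_le_card (filter_subset _ _)
      _ = 2 ^ n := by simp
      _ ≤ 2 ^ D := Nat.pow_le_pow_right (by norm_num) hDn.le
      _ ≤ 4 ^ D := Nat.pow_le_pow_left (by norm_num) D

/-- the parity character through threshold gates -/
lemma chi_eq_thresholds (U : Finset (Fin n)) (x : Fin n → Bool) :
    chi U x = 1 - 2 * ∑ j ∈ range U.card, (-1) ^ j * (if j + 1 ≤ (U ∩ supp x).card then (1 : ℤ) else 0) := by
  classical
  have h1 : chi U x = (-1) ^ (U ∩ supp x).card := by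
    unfold chi
    rw [prod_ite, prod_const, prod_const, one_pow, mul_one]
    congr 2
    ext i
    simp [supp]
  rw [h1]
  have hle : (U ∩ supp x).card ≤ U.card := card_le_card inter_subset_left
  set t := (U ∩ supp x).card with ht
  have h2 : ∑ j ∈ range U.card, (-1 : ℤ) ^ j * (if j + 1 ≤ t then (1 : ℤ) else 0)
      = ∑ j ∈ range t, (-1 : ℤ) ^ j := by
    simp_rw [mul_ite, mul_one, mul_zero]
    rw [← sum_filter]
    congr 1
    ext j
    simp only [mem_filter, mem_range]
    omega
  rw [h2]
  have h3 : ∀ t : ℕ, 2 * ∑ j ∈ range t, (-1 : ℤ) ^ j = 1 - (-1) ^ t := by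
    intro t
    induction t with
    | zero => simp
    | succ t ih => rw [sum_range_succ, mul_add, ih, pow_succ]; ring
  rw [h3]
  ring

end Pool.Agent.H93.Sens
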