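import Mathlib

open Finset

namespace Pool.Agent.H93.Sens

section Huang

variable {α : Type*} [Fintype α] [LinearOrder α]

/-- flip one coordinate -/
def flip (x : α → Bool) (i : α) : α → Bool := Function.update x i (!x i)

omit [Fintype α] in
lemma flip_same (x : α → Bool) (i : α) : flip x i i = !x i := by simp [flip]

omit [Fintype α] in
lemma flip_ne (x : α → Bool) {i j : α} (h : j ≠ i) : flip x i j = x j := by simp [flip, h]

omit [Fintype α] in
lemma flip_flip (x : α → Bool) (i : α) : flip (flip x i) i = x := by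
  ext j
  by_cases h : j = i
  · subst h; simp [flip]
  · simp [flip, h]

omit [Fintype α] in
lemma flip_comm (x : α → Bool) {i j : α} (h : i ≠ j) : flip (flip x i) j = flip (flip x j) i := by
  ext k
  by_cases hi : k = i
  · subst hi
    rw [flip_ne _ h, flip_same, flip_same, flip_ne _ h]
  · by_cases hj : k = j
    · subst hj
      rw [flip_same, flip_ne _ hi, flip_ne _ hi, flip_same]
    · rw [flip_ne _ hj, flip_ne _ hi, flip_ne _ hi, flip_ne _ hj]

/-- sign of a bit -/
def sg (b : Bool) : ℝ := if b then -1 else 1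

lemma sg_not (b : Bool) : sg (!b) = - sg b := by cases b <;> simp [sg]

lemma sg_mul_self (b : Bool) : sg b * sg b = 1 := by cases b <;> simp [sg]

/-- the sign attached to the edge `x — x^i`. -/
noncomputable def sgn (x : α → Bool) (i : α) : ℝ := ∏ j ∈ univ.filter (· < i), sg (x j)

/-- total parity sign -/
noncomputable def tau (x : α → Bool) : ℝ := ∏ j, sg (x j)

lemma sgn_mul_self (x : α → Bool) (i : α) : sgn x i * sgn x i = 1 := by
  unfold sgn
  rw [← prod_mul_distrib]
  exact prod_eq_one fun j _ => sg_mul_self _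

lemma abs_sgn (x : α → Bool) (i : α) : |sgn x i| = 1 := by
  have := sgn_mul_self x i
  have h : |sgn x i| * |sgn x i| = 1 := by rw [← abs_mul, this, abs_one]
  nlinarith [abs_nonneg (sgn x i)]

lemma sgn_flip_of_le (x : α → Bool) {i j : α} (h : i ≤ j) : sgn (flip x j) i = sgn x i := by
  unfold sgn
  refine prod_congr rfl fun k hk => ?_
  rw [flip_ne]
  rw [mem_filter] at hk
  exact (lt_of_lt_of_le hk.2 h).ne

lemma sgn_flip_of_lt (x : α → Bool) {i j : α} (h : j < i) : sgn (flip x j) i = - sgn x i := by
  unfold sgn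
  have hj : j ∈ univ.filter (· < i) := by simp [h]
  rw [← mul_prod_erase _ _ hj, ← mul_prod_erase _ (fun k => sg (x k)) hj, flip_same, sg_not,
    neg_mul]
  congr 2
  refine prod_congr rfl fun k hk => ?_
  rw [flip_ne _ (ne_of_mem_erase hk)]

lemma tau_flip (x : α → Bool) (i : α) : tau (flip x i) = - tau x := by
  unfold tau
  rw [← mul_prod_erase _ _ (mem_univ i), ← mul_prod_erase _ (fun k => sg (x k)) (mem_univ i),
    flip_same, sg_not, neg_mul]
  congr 2
  refine prod_congr rfl fun k hk => ?_
  rw [flip_ne _ (ne_of_mem_erase hk)]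

lemma tau_mul_self (x : α → Bool) : tau x * tau x = 1 := by
  unfold tau
  rw [← prod_mul_distrib]
  exact prod_eq_one fun j _ => sg_mul_self _

/-- Huang's signed adjacency operator. -/
noncomputable def opA (α : Type*) [Fintype α] [LinearOrder α] :
    ((α → Bool) → ℝ) →ₗ[ℝ] ((α → Bool) → ℝ) where
  toFun φ := fun x => ∑ i, sgn x i * φ (flip x i)
  map_add' φ ψ := by
    ext x
    simp [mul_add, sum_add_distrib]
  map_smul' c φ := by
    ext x
    simp only [Pi.smul_apply, smul_eq_mul, RingHom.id_apply, mul_sum]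
    refine sum_congr rfl fun i _ => by ring

lemma opA_apply (φ : (α → Bool) → ℝ) (x : α → Bool) :
    opA α φ x = ∑ i, sgn x i * φ (flip x i) := rfl

lemma opA_opA (φ : (α → Bool) → ℝ) : opA α (opA α φ) = (Fintype.card α : ℝ) • φ := by
  ext x
  simp only [opA_apply, Pi.smul_apply, smul_eq_mul, mul_sum]
  set a : α → α → ℝ := fun i j => sgn x i * (sgn (flip x i) j * φ (flip (flip x i) j)) with ha
  have hdiag : ∀ i, a i i = φ x := by
    intro i
    simp only [ha]
    rw [sgn_flip_of_le x le_rfl, flip_flip, ← mul_assoc, sgn_mul_self, one_mul]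
  have hanti' : ∀ i j, i < j → a i j + a j i = 0 := by
    intro i j hij
    simp only [ha]
    rw [sgn_flip_of_lt x hij, sgn_flip_of_le x hij.le, flip_comm x hij.ne]
    ring
  have hanti : ∀ i j, i ≠ j → a i j + a j i = 0 := by
    intro i j hij
    rcases lt_or_gt_of_ne hij with h | h
    · exact hanti' i j h
    · rw [add_comm]; exact hanti' j i h
  have h2 : (∑ i, ∑ j, a i j) + ∑ i, ∑ j, a i j = 2 * ((Fintype.card α : ℝ) * φ x) := by
    calc (∑ i, ∑ j, a i j) + ∑ i, ∑ j, a i j = (∑ i, ∑ j, a i j) + ∑ i, ∑ j, a j i := by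
          congr 1
          exact sum_comm
      _ = ∑ i, ∑ j, (a i j + a j i) := by
          rw [← sum_add_distrib]
          refine sum_congr rfl fun i _ => ?_
          rw [← sum_add_distrib]
      _ = ∑ i : α, (2 * φ x) := by
          refine sum_congr rfl fun i _ => ?_
          rw [sum_eq_single i]
          · rw [hdiag]; ring
          · intro j _ hj
            exact hanti i j hj.symm
          · simp
      _ = 2 * ((Fintype.card α : ℝ) * φ x) := by
          rw [sum_const, card_univ, nsmul_eq_mul]; ring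
  have h3 : (∑ i, ∑ j, a i j) = (Fintype.card α : ℝ) * φ x := by linarith
  exact h3

/-- multiplication by the parity sign -/
noncomputable def opB (α : Type*) [Fintype α] [LinearOrder α] :
    ((α → Bool) → ℝ) →ₗ[ℝ] ((α → Bool) → ℝ) where
  toFun φ := fun x => tau x * φ x
  map_add' φ ψ := by
    ext x
    simp [mul_add]
  map_smul' c φ := by
    ext x
    simp only [Pi.smul_apply, smul_eq_mul, RingHom.id_apply]
    ring

lemma opB_injective : Function.Injective (opB α) := by
  intro φ ψ h
  ext x
  have h1 : tau x * φ x = tau x * ψ x := congrFun h x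
  have h2 := tau_mul_self x
  calc φ x = tau x * (tau x * φ x) := by rw [← mul_assoc, h2, one_mul]
    _ = tau x * (tau x * ψ x) := by rw [h1]
    _ = ψ x := by rw [← mul_assoc, h2, one_mul]

lemma opA_opB (φ : (α → Bool) → ℝ) : opA α (opB α φ) = - opB α (opA α φ) := by
  ext x
  have h1 : opA α (opB α φ) x = ∑ i, sgn x i * (tau (flip x i) * φ (flip x i)) := rfl
  have h2 : (- opB α (opA α φ)) x = -(tau x * ∑ i, sgn x i * φ (flip x i)) := rfl
  rw [h1, h2, mul_sum, ← sum_neg_distrib]
  refine sum_congr rfl fun i _ => ?_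
  rw [tau_flip]
  ring

/-- **Huang's theorem** -/
theorem huang (hd : 0 < Fintype.card α) (S : Finset (α → Bool))
    (hS : 2 ^ Fintype.card α < 2 * S.card) :
    ∃ q ∈ S, Fintype.card α ≤ (univ.filter fun i => flip q i ∈ S).card ^ 2 := by
  classical
  set d := Fintype.card α with hdd
  have hd0 : (0 : ℝ) < d := by exact_mod_cast hd
  set r : ℝ := Real.sqrt d with hr
  have hr0 : 0 < r := Real.sqrt_pos.2 hd0
  have hrr : r * r = d := Real.mul_self_sqrt hd0.le
  let V : Submodule ℝ ((α → Bool) → ℝ) := LinearMap.ker (opA α - r • LinearMap.id)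
  let W : Submodule ℝ ((α → Bool) → ℝ) := LinearMap.ker (opA α + r • LinearMap.id)
  have hVmem : ∀ φ, φ ∈ V ↔ opA α φ = r • φ := by
    intro φ
    simp only [V, LinearMap.mem_ker, LinearMap.sub_apply, LinearMap.smul_apply, LinearMap.id_apply,
      sub_eq_zero]
  have hWmem : ∀ φ, φ ∈ W ↔ opA α φ = - (r • φ) := by
    intro φ
    simp only [W, LinearMap.mem_ker, LinearMap.add_apply, LinearMap.smul_apply, LinearMap.id_apply]
    exact add_eq_zero_iff_eq_neg
  have hsup : V ⊔ W = ⊤ := by
    rw [eq_top_iff]
    intro φ _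
    have h1 : opA α φ + r • φ ∈ V := by
      rw [hVmem, map_add, map_smul, opA_opA, ← hrr, smul_add, smul_smul]
      abel
    have h2 : r • φ - opA α φ ∈ W := by
      rw [hWmem, map_sub, map_smul, opA_opA, ← hrr, smul_sub, smul_smul]
      abel
    have h3 : φ = (1 / (2 * r)) • (opA α φ + r • φ) + (1 / (2 * r)) • (r • φ - opA α φ) := by
      ext x
      simp only [Pi.add_apply, Pi.smul_apply, Pi.sub_apply, smul_eq_mul]
      field_simp
      ring
    rw [h3]
    exact Submodule.add_mem_sup (V.smul_mem _ h1) (W.smul_mem _ h2)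
  have hWV : Module.finrank ℝ W ≤ Module.finrank ℝ V := by
    have hmaps : ∀ φ ∈ W, opB α φ ∈ V := by
      intro φ hφ
      rw [hWmem] at hφ
      rw [hVmem, opA_opB, hφ, map_neg, neg_neg, map_smul]
    refine LinearMap.finrank_le_finrank_of_injective (f := (opB α).restrict hmaps) ?_
    intro a b h
    apply Subtype.ext
    apply opB_injective
    exact congrArg Subtype.val h
  have hdim : 2 ^ d ≤ 2 * Module.finrank ℝ V := by
    have h1 : Module.finrank ℝ (V ⊔ W : Submodule ℝ ((α → Bool) → ℝ)) ≤ Module.finrank ℝ V + Module.finrank ℝ W :=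
      Submodule.finrank_add_le_finrank_add_finrank V W
    rw [hsup, finrank_top, Module.finrank_pi] at h1
    have h2 : Fintype.card (α → Bool) = 2 ^ d := by
      rw [Fintype.card_fun, Fintype.card_bool]
    rw [h2] at h1
    omega
  -- restriction to the complement of S
  let R : V →ₗ[ℝ] ({x // x ∉ S} → ℝ) :=
    { toFun := fun φ x => (φ : (α → Bool) → ℝ) x
      map_add' := by intro a b; rfl
      map_smul' := by intro a b; rfl }
  have hcard : Fintype.card {x // x ∉ S} = 2 ^ d - S.card := by
    rw [Fintype.card_subtype_compl, Fintype.card_fun, Fintype.card_bool, Fintype.card_coe]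
  have hker : LinearMap.ker R ≠ ⊥ := by
    refine LinearMap.ker_ne_bot_of_finrank_lt ?_
    rw [Module.finrank_pi, hcard]
    have hpos : 0 < 2 ^ d := by positivity
    omega
  obtain ⟨y, hy, hy0⟩ := Submodule.exists_mem_ne_zero_of_ne_bot hker
  have hyV := (hVmem (y : (α → Bool) → ℝ)).1 y.2
  have hyS : ∀ x, x ∉ S → (y : (α → Bool) → ℝ) x = 0 := by
    intro x hx
    exact congrFun hy (⟨x, hx⟩ : {x // x ∉ S})
  set z : (α → Bool) → ℝ := (y : (α → Bool) → ℝ) with hz
  have hz0 : z ≠ 0 := fun h => hy0 (Subtype.ext h)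
  obtain ⟨q, -, hq⟩ := exists_max_image (univ : Finset (α → Bool)) (fun x => |z x|) univ_nonempty
  have hqpos : 0 < |z q| := by
    by_contra hneg
    push Not at hneg
    apply hz0
    ext x
    have := (hq x (mem_univ x)).trans hneg
    simpa using le_antisymm this (abs_nonneg _)
  have hqS : q ∈ S := by
    by_contra h
    rw [hyS q h, abs_zero] at hqpos
    exact lt_irrefl _ hqpos
  refine ⟨q, hqS, ?_⟩
  set m := (univ.filter fun i => flip q i ∈ S).card with hm
  have h1 : r * |z q| ≤ m * |z q| := by
    have h2 : r * z q = ∑ i, sgn q i * z (flip q i) := by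
      have := congrFun hyV q
      rw [Pi.smul_apply, smul_eq_mul] at this
      rw [← this]
      rfl
    calc r * |z q| = |r * z q| := by rw [abs_mul, abs_of_pos hr0]
      _ = |∑ i, sgn q i * z (flip q i)| := by rw [h2]
      _ ≤ ∑ i, |sgn q i * z (flip q i)| := abs_sum_le_sum_abs _ _
      _ = ∑ i, |z (flip q i)| := by
          refine sum_congr rfl fun i _ => ?_
          rw [abs_mul, abs_sgn, one_mul]
      _ = ∑ i ∈ univ.filter (fun i => flip q i ∈ S), |z (flip q i)| := by
          rw [sum_filter]
          refine sum_congr rfl fun i _ => ?_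
          by_cases h : flip q i ∈ S
          · rw [if_pos h]
          · rw [if_neg h, hyS _ h, abs_zero]
      _ ≤ ∑ i ∈ univ.filter (fun i => flip q i ∈ S), |z q| :=
          sum_le_sum fun i _ => hq _ (mem_univ _)
      _ = m * |z q| := by rw [sum_const, nsmul_eq_mul]
  have h2 : r ≤ m := le_of_mul_le_mul_right h1 hqpos
  have h3 : (d : ℝ) ≤ (m : ℝ) ^ 2 := by
    rw [← hrr, sq]
    exact mul_le_mul h2 h2 hr0.le (by positivity)
  exact_mod_cast h3

end Huang

end Pool.Agent.H93.Sens
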