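import Pool.Agent.H93.Sens.Degree

/-!
# The asymmetric form of Huang's theorem

If more than half of the vertices of the `d`-cube are chosen and the induced subgraph is properly
coloured by `c` with maximal degrees `a` (colour `false`) and `b` (colour `true`), then `d ≤ a * b`.
Consequently `deg f ≤ s₀(f) s₁(f)`.
-/

open Finset

namespace Pool.Agent.H93.Sens

section Huang

variable {α : Type*} [Fintype α] [LinearOrder α]

/-- **Huang's theorem, bipartite form** -/
theorem huang_asym (hd : 0 < Fintype.card α) (S : Finset (α → Bool)) (c : (α → Bool) → Bool)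
    (hc : ∀ x ∈ S, ∀ i, flip x i ∈ S → c (flip x i) = !(c x)) (a b : ℕ)
    (ha : ∀ x ∈ S, c x = false → (univ.filter fun i => flip x i ∈ S).card ≤ a)
    (hb : ∀ x ∈ S, c x = true → (univ.filter fun i => flip x i ∈ S).card ≤ b)
    (hS : 2 ^ Fintype.card α < 2 * S.card) :
    Fintype.card α ≤ a * b := by
  classical
  set d := Fintype.card α with hdd
  have hd0 : (0 : ℝ) < d := by exact_mod_cast hd
  set r : ℝ := Real.sqrt d with hr
  have hr0 : 0 < r := Real.sqrt_pos.2 hd0
  have hrr : r * r = d := Real.mul_self_sqrt hd0.le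
  let V : Submodule ℝ ((α → Bool) → ℝ) := LinearMap.ker (opA α - r • LinearMap.id)
  let W : Submodule ℝ ((α → Bool) → ℝ) := LinearMap.ker (opA α + r • LinearMap.id)
  have hVmem : ∀ φ, φ ∈ V ↔ opA α φ = r • φ := by
    intro φ
    simp only [V, LinearMap.mem_ker, LinearMap.sub_apply, LinearMap.smul_apply, LinearMap.id_apply,
      sub_eq_zero]
  have hWmem : ∀ φ, φ ∈ W ↔ opA α φ = - (r • φ) := by
    intro φ
    simp only [W, LinearMap.mem_ker, LinearMap.add_apply, LinearMap.smul_apply, LinearMap.id_apply]
    exact add_eq_zero_iff_eq_neg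
  have hsup : V ⊔ W = ⊤ := by
    rw [eq_top_iff]
    intro φ _
    have h1 : opA α φ + r • φ ∈ V := by
      rw [hVmem, map_add, map_smul, opA_opA, ← hrr, smul_add, smul_smul]
      abel
    have h2 : r • φ - opA α φ ∈ W := by
      rw [hWmem, map_sub, map_smul, opA_opA, ← hrr, smul_sub, smul_smul]
      abel
    have h3 : φ = (1 / (2 * r)) • (opA α φ + r • φ) + (1 / (2 * r)) • (r • φ - opA α φ) := by
      ext x
      simp only [Pi.add_apply, Pi.smul_apply, Pi.sub_apply, smul_eq_mul]
      field_simp
      ring
    rw [h3]
    exact Submodule.add_mem_sup (V.smul_mem _ h1) (W.smul_mem _ h2)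
  have hWV : Module.finrank ℝ W ≤ Module.finrank ℝ V := by
    have hmaps : ∀ φ ∈ W, opB α φ ∈ V := by
      intro φ hφ
      rw [hWmem] at hφ
      rw [hVmem, opA_opB, hφ, map_neg, neg_neg, map_smul]
    refine LinearMap.finrank_le_finrank_of_injective (f := (opB α).restrict hmaps) ?_
    intro a b h
    apply Subtype.ext
    apply opB_injective
    exact congrArg Subtype.val h
  have hdim : 2 ^ d ≤ 2 * Module.finrank ℝ V := by
    have h1 : Module.finrank ℝ (V ⊔ W : Submodule ℝ ((α → Bool) → ℝ)) ≤ Module.finrank ℝ V + Module.finrank ℝ W :=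
      Submodule.finrank_add_le_finrank_add_finrank V W
    rw [hsup, finrank_top, Module.finrank_pi] at h1
    have h2 : Fintype.card (α → Bool) = 2 ^ d := by
      rw [Fintype.card_fun, Fintype.card_bool]
    rw [h2] at h1
    omega
  -- restriction to the complement of S
  let R : V →ₗ[ℝ] ({x // x ∉ S} → ℝ) :=
    { toFun := fun φ x => (φ : (α → Bool) → ℝ) x
      map_add' := by intro a b; rfl
      map_smul' := by intro a b; rfl }
  have hcard : Fintype.card {x // x ∉ S} = 2 ^ d - S.card := by
    rw [Fintype.card_subtype_compl, Fintype.card_fun, Fintype.card_bool, Fintype.card_coe]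
  have hker : LinearMap.ker R ≠ ⊥ := by
    refine LinearMap.ker_ne_bot_of_finrank_lt ?_
    rw [Module.finrank_pi, hcard]
    have hpos : 0 < 2 ^ d := by positivity
    omega
  obtain ⟨y, hy, hy0⟩ := Submodule.exists_mem_ne_zero_of_ne_bot hker
  have hyV := (hVmem (y : (α → Bool) → ℝ)).1 y.2
  have hyS : ∀ x, x ∉ S → (y : (α → Bool) → ℝ) x = 0 := by
    intro x hx
    exact congrFun hy (⟨x, hx⟩ : {x // x ∉ S})
  set z : (α → Bool) → ℝ := (y : (α → Bool) → ℝ) with hz
  have hz0 : z ≠ 0 := fun h => hy0 (Subtype.ext h)
  -- the basic inequality at a vertex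
  have hbase : ∀ (q : α → Bool) (m : ℕ) (M : ℝ), 0 ≤ M →
      (univ.filter fun i => flip q i ∈ S).card ≤ m →
      (∀ i, flip q i ∈ S → |z (flip q i)| ≤ M) → r * |z q| ≤ m * M := by
    intro q m M hM hm hMq
    have h2 : r * z q = ∑ i, sgn q i * z (flip q i) := by
      have := congrFun hyV q
      rw [Pi.smul_apply, smul_eq_mul] at this
      rw [← this]
      rfl
    calc r * |z q| = |r * z q| := by rw [abs_mul, abs_of_pos hr0]
      _ = |∑ i, sgn q i * z (flip q i)| := by rw [h2]
      _ ≤ ∑ i, |sgn q i * z (flip q i)| := abs_sum_le_sum_abs _ _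
      _ = ∑ i, |z (flip q i)| := by
          refine sum_congr rfl fun i _ => ?_
          rw [abs_mul, abs_sgn, one_mul]
      _ = ∑ i ∈ univ.filter (fun i => flip q i ∈ S), |z (flip q i)| := by
          rw [sum_filter]
          refine sum_congr rfl fun i _ => ?_
          by_cases h : flip q i ∈ S
          · rw [if_pos h]
          · rw [if_neg h, hyS _ h, abs_zero]
      _ ≤ ∑ i ∈ univ.filter (fun i => flip q i ∈ S), M := by
          refine sum_le_sum fun i hi => hMq i ?_
          simpa using hi
      _ = (univ.filter fun i => flip q i ∈ S).card * M := by rw [sum_const, nsmul_eq_mul]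
      _ ≤ m * M := by
          refine mul_le_mul_of_nonneg_right ?_ hM
          exact_mod_cast hm
  -- maxima over the two colour classes
  obtain ⟨q0, -, hq0⟩ := exists_max_image (univ : Finset (α → Bool))
    (fun x => if c x = false then |z x| else 0) univ_nonempty
  obtain ⟨q1, -, hq1⟩ := exists_max_image (univ : Finset (α → Bool))
    (fun x => if c x = true then |z x| else 0) univ_nonempty
  set A : ℝ := if c q0 = false then |z q0| else 0 with hA
  set B : ℝ := if c q1 = true then |z q1| else 0 with hB
  have hA0 : 0 ≤ A := by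
    rw [hA]
    split_ifs
    · exact abs_nonneg _
    · exact le_rfl
  have hB0 : 0 ≤ B := by
    rw [hB]
    split_ifs
    · exact abs_nonneg _
    · exact le_rfl
  have hAle : ∀ x, c x = false → |z x| ≤ A := by
    intro x hx
    have := hq0 x (mem_univ x)
    simp only [hx, if_true] at this
    exact this
  have hBle : ∀ x, c x = true → |z x| ≤ B := by
    intro x hx
    have := hq1 x (mem_univ x)
    simp only [hx, if_true] at this
    exact this
  have hAB : r * A ≤ a * B := by
    rcases Bool.eq_false_or_eq_true (c q0) with h | h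
    · have : A = 0 := by rw [hA, h]; simp
      rw [this, mul_zero]
      positivity
    · have hAe : A = |z q0| := by rw [hA, h]; simp
      rcases hA0.eq_or_lt with h0 | h0
      · rw [← h0, mul_zero]
        positivity
      · have hq0S : q0 ∈ S := by
          by_contra hn
          rw [hAe, hyS q0 hn, abs_zero] at h0
          exact lt_irrefl _ h0
        rw [hAe]
        refine hbase q0 a B hB0 (ha q0 hq0S h) fun i hi => hBle _ ?_
        rw [hc q0 hq0S i hi, h]
        rfl
  have hBA : r * B ≤ b * A := by
    rcases Bool.eq_false_or_eq_true (c q1) with h | h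
    · have hBe : B = |z q1| := by rw [hB, h]; simp
      rcases hB0.eq_or_lt with h0 | h0
      · rw [← h0, mul_zero]
        positivity
      · have hq1S : q1 ∈ S := by
          by_contra hn
          rw [hBe, hyS q1 hn, abs_zero] at h0
          exact lt_irrefl _ h0
        rw [hBe]
        refine hbase q1 b A hA0 (hb q1 hq1S h) fun i hi => hAle _ ?_
        rw [hc q1 hq1S i hi, h]
        rfl
    · have : B = 0 := by rw [hB, h]; simp
      rw [this, mul_zero]
      positivity
  have hpos : 0 < A ∨ 0 < B := by
    by_contra hneg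
    push Not at hneg
    apply hz0
    ext x
    have : |z x| ≤ 0 := by
      rcases Bool.eq_false_or_eq_true (c x) with h | h
      · exact (hBle x h).trans hneg.2
      · exact (hAle x h).trans hneg.1
    simpa using le_antisymm this (abs_nonneg _)
  have h3 : (d : ℝ) ≤ a * b := by
    have ha0 : (0 : ℝ) ≤ a := by positivity
    have hb0 : (0 : ℝ) ≤ b := by positivity
    rcases hpos with h | h
    · have h4 : (d : ℝ) * A ≤ (a * b) * A := by
        calc (d : ℝ) * A = r * (r * A) := by rw [← hrr]; ring
          _ ≤ r * (a * B) := by gcongr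
          _ = a * (r * B) := by ring
          _ ≤ a * (b * A) := by gcongr
          _ = (a * b) * A := by ring
      exact le_of_mul_le_mul_right h4 h
    · have h4 : (d : ℝ) * B ≤ (a * b) * B := by
        calc (d : ℝ) * B = r * (r * B) := by rw [← hrr]; ring
          _ ≤ r * (b * A) := by gcongr
          _ = b * (r * A) := by ring
          _ ≤ b * (a * B) := by gcongr
          _ = (a * b) * B := by ring
      exact le_of_mul_le_mul_right h4 h
  exact_mod_cast h3

end Huang

variable {n : ℕ}

/-- **Huang + Gotsman–Linial**, asymmetric form: if the coefficient of `x^S` is nonzero then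
`|S| ≤ a b`, where `a` bounds the sensitivity at the zeros of `f` and `b` at the ones. -/
theorem card_le_mul_of_moeb_ne_zero (f : (Fin n → Bool) → Bool) (a b : ℕ)
    (h0 : ∀ x, f x = false → sensAt f x ≤ a) (h1 : ∀ x, f x = true → sensAt f x ≤ b)
    (S : Finset (Fin n)) (hS : moeb f S ≠ 0) : S.card ≤ a * b := by
  classical
  rcases Nat.eq_zero_or_pos S.card with h0 | hpos
  · omega
  have hd : 0 < Fintype.card S := by simpa using hpos
  let g : (S → Bool) → Bool := fun y => f (ext S y)
  have hsum : ∑ y : S → Bool, tau y * (val f (ext S y) : ℝ) ≠ 0 := by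
    rw [sum_tau_eq]
    refine mul_ne_zero (by positivity) ?_
    · exact_mod_cast hS
  -- the two sets
  let P : Finset (S → Bool) := univ.filter fun y => tau y * (1 - 2 * (val f (ext S y) : ℝ)) = 1
  let Q : Finset (S → Bool) := univ.filter fun y => tau y * (1 - 2 * (val f (ext S y) : ℝ)) = -1
  have hval : ∀ y, tau y * (1 - 2 * (val f (ext S y) : ℝ)) = 1 ∨ tau y * (1 - 2 * (val f (ext S y) : ℝ)) = -1 := by
    intro y
    have h1 : tau y = 1 ∨ tau y = -1 := by
      have := tau_mul_self y
      exact mul_self_eq_one_iff.1 this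
    have h2 : (1 - 2 * (val f (ext S y) : ℝ)) = 1 ∨ (1 - 2 * (val f (ext S y) : ℝ)) = -1 := by
      unfold val
      split_ifs
      · right; norm_num
      · left; norm_num
    rcases h1 with h1 | h1 <;> rcases h2 with h2 | h2 <;> rw [h1, h2] <;> norm_num
  have htau : ∑ y : S → Bool, tau y = 0 := by
    obtain ⟨i⟩ : Nonempty S := Fintype.card_pos_iff.1 hd
    have h1 : ∑ y : S → Bool, tau y = ∑ y : S → Bool, tau (flip y i) := by
      refine (Equiv.sum_comp (Function.Involutive.toPerm (fun y => flip y i) (fun y => flip_flip y i)) tau).symm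
    have h2 : ∑ y : S → Bool, tau (flip y i) = - ∑ y : S → Bool, tau y := by
      rw [← sum_neg_distrib]
      exact sum_congr rfl fun y _ => tau_flip y i
    linarith
  have hPQ : (P.card : ℝ) - Q.card = ∑ y : S → Bool, tau y * (1 - 2 * (val f (ext S y) : ℝ)) := by
    have h1 : ∀ y, tau y * (1 - 2 * (val f (ext S y) : ℝ))
        = (if tau y * (1 - 2 * (val f (ext S y) : ℝ)) = 1 then 1 else 0)
          - (if tau y * (1 - 2 * (val f (ext S y) : ℝ)) = -1 then 1 else 0) := by
      intro y
      rcases hval y with h | h <;> rw [h] <;> norm_num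
    rw [sum_congr rfl (fun y _ => h1 y), sum_sub_distrib]
    simp [P, Q]
  have hPQne : (P.card : ℝ) ≠ Q.card := by
    intro h
    apply hsum
    have h1 : (0 : ℝ) = ∑ y : S → Bool, tau y * (1 - 2 * (val f (ext S y) : ℝ)) := by
      rw [← hPQ, h, sub_self]
    have h2 : ∑ y : S → Bool, tau y * (1 - 2 * (val f (ext S y) : ℝ))
        = ∑ y : S → Bool, tau y - 2 * ∑ y : S → Bool, tau y * (val f (ext S y) : ℝ) := by
      rw [mul_sum, ← sum_sub_distrib]
      exact sum_congr rfl fun y _ => by ring
    rw [h2, htau] at h1
    linarith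
  have htot : P.card + Q.card = 2 ^ Fintype.card S := by
    have h1 : P ∪ Q = univ := by
      ext y
      simp only [P, Q, mem_union, mem_filter, mem_univ, true_and, iff_true]
      exact hval y
    have h2 : Disjoint P Q := by
      rw [Finset.disjoint_left]
      intro y hy hy'
      simp only [P, Q, mem_filter, mem_univ, true_and] at hy hy'
      rw [hy] at hy'
      norm_num at hy'
    rw [← card_union_of_disjoint h2, h1, card_univ, Fintype.card_fun, Fintype.card_bool]
  -- general consequence
  have key : ∀ (c : ℝ), c ≠ 0 →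
      ∀ (Z : Finset (S → Bool)), (∀ y, y ∈ Z ↔ tau y * (1 - 2 * (val f (ext S y) : ℝ)) = c) →
      2 ^ Fintype.card S < 2 * Z.card → S.card ≤ a * b := by
    intro c hc Z hZ hcard
    have hne : ∀ q ∈ Z, ∀ i : S, flip q i ∈ Z → f (ext S (flip q i)) ≠ f (ext S q) := by
      intro q hq i hi' heq
      have h1 := (hZ _).1 hi'
      have h2 := (hZ _).1 hq
      have h3 : val f (ext S (flip q i)) = val f (ext S q) := by
        unfold val
        rw [heq]
      rw [tau_flip, h3] at h1
      have : c = -c := by
        rw [← h2] at h1 ⊢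
        linarith
      apply hc
      linarith
    have hsub : ∀ q ∈ Z, (univ.filter fun i : S => flip q i ∈ Z).card ≤ sensAt f (ext S q) := by
      intro q hq
      unfold sensAt
      refine card_le_card_of_injOn (fun i : S => i.1) ?_ (fun a _ b _ h => Subtype.ext h)
      intro i hi
      have hi' : flip q i ∈ Z := by simpa using hi
      simp only [coe_filter, mem_univ, true_and, Set.mem_ofPred_eq]
      intro heq
      rw [← ext_flip] at heq
      exact hne q hq i hi' heq
    have := huang_asym hd Z (fun y => f (ext S y)) ?_ a b ?_ ?_ hcard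
    · rwa [Fintype.card_coe] at this
    · intro q hq i hi
      have := hne q hq i hi
      revert this
      cases f (ext S (flip q i)) <;> cases f (ext S q) <;> simp
    · intro q hq hfq
      exact (hsub q hq).trans (h0 _ hfq)
    · intro q hq hfq
      exact (hsub q hq).trans (h1 _ hfq)
  have hPQne' : P.card ≠ Q.card := fun h => hPQne (by rw [h])
  rcases lt_or_gt_of_ne hPQne' with h | h
  · refine key (-1) (by norm_num) Q (fun y => by simp [Q]) ?_
    omega
  · refine key 1 (by norm_num) P (fun y => by simp [P]) ?_
    omega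

end Pool.Agent.H93.Sens
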